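import Mathlib
import Pool.Agent.Helper943.Comb.Defs
import Pool.Agent.Helper943.Comb.Combing
import Pool.Agent.Helper943.Comb.AutLemma
import Pool.Agent.Helper943.LM.Final
import Pool.Agent.Helper943.LM.Grp

/-!
A finitely generated group that is combable but not automatic.

The group `G` acts on (the 4-regular tree) x (the plane), simply transitively on (vertices) x
(a lattice in the plane), where the stable letters of the tree rotate the plane by the angle of
`(-3 + sqrt (-7)) / 4`, which is not a rational multiple of the full turn. It is a subgroup of
index 2 in a Leary-Minasyan group.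

* `TP.combable`: the group is combable by running at the same time along the geodesic of the tree
  and radially in the plane.
* `no_UA`: the group has no automatic structure. From an automatic structure one gets, on the
  finitely many types of entrances into half trees, a nonnegative integer matrix `M` and a vector
  `u >= |h|`, `h <> 0` with `M u = 2 u` and `M h = 2 w h`, where `w` is the rotation; the maximum
  principle then forces `w` to be a root of unity.
-/

set_option autoImplicit false

namespace Pool.Agent.Results.MP_5bc3cb_al.CombableNotAutomatic

open Pool.Agent.Helper943.Comb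

/-- There is a (finitely generated) group that is combable but not automatic. -/
theorem result : ∃ (G : Type) (_ : Group G), Group.FG G ∧ IsCombableGroup G ∧ ¬ IsAutomatic G := by
  obtain ⟨H, _, co, hom, B, h1, h2, h3, h4⟩ := Pool.Agent.Helper943.LM.exists_H
  obtain ⟨T⟩ := Pool.Agent.Helper943.LM.tp_of_H H co hom B h1 h2 h3 h4
  refine ⟨H, inferInstance, ?_, Pool.Agent.Helper943.LM.combable_of_TP T, ?_⟩
  · obtain ⟨S, hS, _⟩ := Pool.Agent.Helper943.LM.combable_of_TP T
    exact ⟨⟨S, hS⟩⟩
  · intro h
    obtain ⟨U⟩ := Pool.Agent.Helper943.LM.uaOfAut (autStr_of h)
    exact Pool.Agent.Helper943.LM.no_UA T U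

end Pool.Agent.Results.MP_5bc3cb_al.CombableNotAutomatic
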